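import Pool.Agent.Run7.h343.PV.Iface3
import Pool.Agent.Y766.R3.TD

set_option autoImplicit false

/-!
Piece MM of the project PV of helper343: the second moment of the mollifier.
-/

namespace Pool.Agent.Run7.h228.PV

open Finset Complex Pool.Agent.Run7.h343.PV

theorem mu_abs_le (n : ℕ) : |mu n| ≤ 1 := by
  unfold mu
  have h := @ArithmeticFunction.abs_moebius_le_one n
  exact_mod_cast h

theorem PL_nonneg (Y : ℝ) (l : ℕ) : 0 ≤ PL Y l := le_max_left _ _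

theorem PL_le_one (Y : ℝ) (hY : 1 ≤ Y) (l : ℕ) : PL Y l ≤ 1 := by
  unfold PL
  apply max_le zero_le_one
  have h1 : 0 ≤ Real.log l / Real.log Y := by
    apply div_nonneg (Real.log_natCast_nonneg l) (Real.log_nonneg hY)
  linarith

/-- the coefficients -/
noncomputable def ac {q : ℕ} (Y : ℝ) (χ : DirichletCharacter ℂ q) (l : ℕ) : ℂ :=
  ((mu l * PL Y l / Real.sqrt l : ℝ) : ℂ) * χ (l : ZMod q)

theorem ac_le {q : ℕ} (Y : ℝ) (hY : 1 ≤ Y) (χ : DirichletCharacter ℂ q) (l : ℕ) (hl : 1 ≤ l) :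
    ‖ac Y χ l‖ ^ 2 ≤ (l : ℝ)⁻¹ := by
  have hl0 : (0 : ℝ) < l := by exact_mod_cast hl
  have h1 : ‖ac Y χ l‖ ≤ 1 / Real.sqrt l := by
    unfold ac
    rw [norm_mul, Complex.norm_real, Real.norm_eq_abs, abs_div, abs_mul,
      abs_of_nonneg (Real.sqrt_nonneg _), abs_of_nonneg (PL_nonneg Y l)]
    have h2 : |mu l| * PL Y l ≤ 1 :=
      mul_le_one₀ (mu_abs_le l) (PL_nonneg Y l) (PL_le_one Y hY l)
    have h3 : ‖χ (l : ZMod q)‖ ≤ 1 := χ.norm_le_one _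
    have h5 : 0 ≤ |mu l| * PL Y l / Real.sqrt l :=
      div_nonneg (mul_nonneg (abs_nonneg _) (PL_nonneg Y l)) (Real.sqrt_nonneg _)
    calc |mu l| * PL Y l / Real.sqrt l * ‖χ (l : ZMod q)‖ ≤ |mu l| * PL Y l / Real.sqrt l * 1 :=
          mul_le_mul_of_nonneg_left h3 h5
      _ ≤ 1 / Real.sqrt l := by
          rw [mul_one]
          gcongr
  calc ‖ac Y χ l‖ ^ 2 ≤ (1 / Real.sqrt l) ^ 2 := by gcongr
    _ = (l : ℝ)⁻¹ := by
      rw [div_pow, one_pow, Real.sq_sqrt hl0.le, one_div]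

theorem t_MM : S_MM := by
  classical
  intro p ν m hmν _ χ Y hp hm hY hYp
  have hd : 0 < p ^ m := pow_pos hp.pos m
  have hMol : ∀ θ : DirichletCharacter ℂ (p ^ m), Mol Y (tw hmν χ θ) =
      ∑ l ∈ Icc 1 ⌊Y⌋₊, θ (l : ZMod (p ^ m)) * ac Y χ l := by
    intro θ
    unfold Mol
    refine sum_congr rfl fun l _ => ?_
    have h := tw_apply hmν χ θ (l : ℤ)
    rw [Int.cast_natCast, Int.cast_natCast] at h
    rw [h]
    unfold ac
    ring
  simp_rw [hMol]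
  have hz : ∀ n ∈ Icc 1 ⌊Y⌋₊, ¬ IsUnit (n : ZMod (p ^ m)) → ac Y χ n = 0 := by
    intro n _ hn
    have h1 : ¬ IsUnit (n : ZMod (p ^ ν)) := by
      intro h
      apply hn
      rw [ZMod.isUnit_iff_coprime] at h ⊢
      exact Nat.Coprime.coprime_dvd_right (pow_dvd_pow p hmν) h
    unfold ac
    rw [MulChar.map_nonunit χ h1, mul_zero]
  refine (Pool.Agent.Y766.R3.orth (Icc 1 ⌊Y⌋₊) (ac Y χ) hz).trans ?_
  have hfl : ⌊Y⌋₊ < p ^ m := by
    have h1 : (⌊Y⌋₊ : ℝ) ≤ Y := Nat.floor_le (by linarith)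
    have h2 : (⌊Y⌋₊ : ℝ) < ((p ^ m : ℕ) : ℝ) := by
      push_cast
      linarith
    exact_mod_cast h2
  have hdiag : ∑ n ∈ Icc 1 ⌊Y⌋₊, ∑ k ∈ Icc 1 ⌊Y⌋₊,
      (if (n : ZMod (p ^ m)) = (k : ZMod (p ^ m)) then ac Y χ n * (starRingEnd ℂ) (ac Y χ k)
        else 0) = ∑ n ∈ Icc 1 ⌊Y⌋₊, ac Y χ n * (starRingEnd ℂ) (ac Y χ n) := by
    refine sum_congr rfl fun n hn => ?_
    rw [sum_eq_single_of_mem n hn]
    · rw [if_pos rfl]
    · intro k hk hkn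
      rw [if_neg]
      intro h
      apply hkn
      rw [mem_Icc] at hn hk
      rw [ZMod.natCast_eq_natCast_iff'] at h
      rw [Nat.mod_eq_of_lt (by omega), Nat.mod_eq_of_lt (by omega)] at h
      exact h.symm
  rw [hdiag]
  have h1 : ‖∑ n ∈ Icc 1 ⌊Y⌋₊, ac Y χ n * (starRingEnd ℂ) (ac Y χ n)‖ ≤ 1 + Real.log Y := by
    refine (norm_sum_le _ _).trans ?_
    have h2 : ∑ n ∈ Icc 1 ⌊Y⌋₊, ‖ac Y χ n * (starRingEnd ℂ) (ac Y χ n)‖ ≤
        ∑ n ∈ Icc 1 ⌊Y⌋₊, ((n : ℝ))⁻¹ := by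
      refine sum_le_sum fun n hn => ?_
      rw [norm_mul, Complex.norm_conj, ← pow_two]
      exact ac_le Y hY χ n (mem_Icc.mp hn).1
    refine h2.trans ?_
    have h3 := harmonic_le_one_add_log ⌊Y⌋₊
    rw [harmonic_eq_sum_Icc] at h3
    push_cast at h3
    refine h3.trans ?_
    have h4 : Real.log (⌊Y⌋₊ : ℝ) ≤ Real.log Y := by
      apply Real.log_le_log
      · have : 1 ≤ ⌊Y⌋₊ := Nat.one_le_floor_iff Y |>.mpr hY
        exact_mod_cast this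
      · exact Nat.floor_le (by linarith)
    linarith
  have hp0 : (0 : ℝ) ≤ (p : ℝ) ^ m := by positivity
  push_cast
  exact mul_le_mul_of_nonneg_left h1 hp0

end Pool.Agent.Run7.h228.PV
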